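import Pool.Agent.H5.DPG.Stmts

/-!
# Board `dpg`, row RCS: soundness of the recursion
-/

set_option autoImplicit false

namespace Pool.DPG

open Filter TMLib Pool.PG

namespace RCS64

theorem msk_zero (f : ℕ → Bool) : msk 0 f = [] := by
  simp [msk]

theorem jn_zero (g : Game) (hg : g.length = 0) (j : Bool) (B L : List Bool) : jn g j B L = [] := by
  unfold jn
  split_ifs with h
  · rfl
  · rw [hg, msk_zero]

theorem zs_zero (g : Game) (hg : g.length = 0) (S : List Bool → List Bool) (X L : List Bool) :
    zs g S X L = [] := by
  unfold zs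
  split_ifs with h h'
  · rfl
  · rw [hg, msk_zero]
  · exact jn_zero g hg _ _ _

theorem jn_ne (g : Game) (j : Bool) (B L : List Bool) (h : jn g j B L ≠ []) : L ≠ [] := by
  intro hL
  apply h
  unfold jn
  rw [if_pos hL]

theorem fs1_mem (c : ℕ) (g : Game) (X : List Bool) (h : fnd c g X ≠ []) :
    fs1 c g X ∈ fnd c g X := by
  unfold fs1
  generalize fnd c g X = l at h
  cases l with
  | nil => exact absurd rfl h
  | cons a l => simp

/-- The next set is the mask of a subgame. -/
theorem nxt_sub (h3 : DSBStmt) (c : ℕ) (g : Game) (X : List Bool) (hX : Sub g X) :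
    Sub g (nxt c g X) := by
  unfold nxt
  split_ifs with h
  · exact (h3 g (pl g X) X (tp g X) hX).1
  · exact (h3 g (fs1 c g X).1 X (fs1 c g X).2 hX).1

end RCS64

open RCS64 in
/-- **RCS** -/
theorem rcs_thm (h1 : FDSStmt) (h2 : ZSSStmt) (h3 : DSBStmt) (h4 : BRSStmt) (h5 : FSBStmt)
    (h6 : BRCStmt) : RCSStmt := by
  intro c S g hS t
  induction t with
  | zero =>
    intro X _ h
    exact absurd rfl h
  | succ t ih =>
    intro X hX h
    have hstep : rc c S g (t + 1) X = up c S g X (rc c S g t (nxt c g X)) := rfl
    rw [hstep] at h ⊢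
    have hL : rc c S g t (nxt c g X) ≠ [] →
        Lab g (nxt c g X) (rc c S g t (nxt c g X)) := fun hne =>
      ih (nxt c g X) (nxt_sub h3 c g X hX) hne
    generalize rc c S g t (nxt c g X) = L at h hL ⊢
    by_cases hb : bru c g X = []
    · by_cases hf : fnd c g X = []
      · have e1 : up c S g X L = zs g (S g) X L := by
          unfold up
          rw [if_neg (by simp [hb]), if_pos hf]
        have e2 : nxt c g X = dif g X (nA g X) := by
          unfold nxt
          rw [if_pos hf]
        rw [e1] at h ⊢
        rw [e2] at hL
        have hg : 0 < g.length := by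
          rcases Nat.eq_zero_or_pos g.length with h0 | h0
          · exact absurd (zs_zero g h0 (S g) X L) h
          · exact h0
        have hne : (fs g X).Nonempty := by
          rw [Finset.nonempty_iff_ne_empty]
          intro he
          refine h6 c g X hg hX ?_ hb
          rw [(h5.2.2.1 g X hX.1).1, he, Finset.card_empty, pow_zero]
          exact Nat.one_le_pow _ _ (by omega)
        exact h2 g (S g) X L hX hne hL hS h
      · have e1 : up c S g X L =
            jn g (fs1 c g X).1 (att (fs1 c g X).1 g X (fs1 c g X).2) L := by
          unfold up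
          rw [if_neg (by simp [hb]), if_neg hf]
        have e2 : nxt c g X = dif g X (att (fs1 c g X).1 g X (fs1 c g X).2) := by
          unfold nxt
          rw [if_neg hf]
        rw [e1] at h ⊢
        rw [e2] at hL
        have hLn := jn_ne g _ _ L h
        exact (h1 c g X hX (fs1 c g X) (fs1_mem c g X hf)).2.2 L hLn (hL hLn)
    · have e1 : up c S g X L = bru c g X := by
        unfold up
        rw [if_pos hb]
      rw [e1]
      exact h4 c g X hX hb

end Pool.DPG
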